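import Pool.Agent.X97.IR.Uni

set_option autoImplicit false

/-! # MP_4a6649_lc: an introreducible set that is not a finite union of uniformly introreducible
sets -/

namespace Pool.Agent.Results.MP_4a6649_lc.NotUnion

open Pool.Agent.X97.IR

/-- There is an introreducible set `A` for which there are no `n` and no uniformly introreducible
sets `B_0, ..., B_n` with `A = B_0 ∪ ... ∪ B_n`. -/
theorem result : ∃ A : Set ℕ, Introreducible A ∧
    ¬ ∃ (n : ℕ) (B : Fin (n + 1) → Set ℕ), (∀ i, UniformlyIntroreducible (B i)) ∧
      A = ⋃ i, B i :=
  exists_not_union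

end Pool.Agent.Results.MP_4a6649_lc.NotUnion
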